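import Pool.Agent.MP_6b3e96_gt.H69.Frame

/-!
The fundamental theorem of surfaces for minimal surfaces of the sphere.
-/

open scoped ContDiff Topology RealInnerProductSpace
open Set Filter Complex

noncomputable section

namespace Pool.Agent.MP_6b3e96_gt.H69

open Pool.Agent.MP_6b3e96_gt.H77

/-- The standard basis. -/
def ev (j : Fin 4) : E4 := EuclideanSpace.single j 1

/-- Elementary skew operators. -/
def el (i j : Fin 4) : E4 →L[ℝ] E4 :=
  (EuclideanSpace.proj i : E4 →L[ℝ] ℝ).smulRight (ev j) -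
    (EuclideanSpace.proj j : E4 →L[ℝ] ℝ).smulRight (ev i)

/-- Skew operators with five prescribed entries. -/
def sk (a b c d e : ℝ) : E4 →L[ℝ] E4 :=
  a • el 0 1 + b • el 0 2 + c • el 1 2 + d • el 1 3 + e • el 2 3

theorem sk_apply (a b c d e : ℝ) (x : E4) : sk a b c d e x =
    !₂[-a * x 1 - b * x 2, a * x 0 - c * x 2 - d * x 3, b * x 0 + c * x 1 - e * x 3,
      d * x 1 + e * x 2] := by
  ext i
  fin_cases i <;> simp [sk, el, ev] <;> ring

theorem sk_0 (a b c d e : ℝ) : sk a b c d e (ev 0) = a • ev 1 + b • ev 2 := by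
  rw [sk_apply]
  ext i
  fin_cases i <;> simp [ev]

theorem sk_1 (a b c d e : ℝ) : sk a b c d e (ev 1) = -a • ev 0 + c • ev 2 + d • ev 3 := by
  rw [sk_apply]
  ext i
  fin_cases i <;> simp [ev]

theorem sk_2 (a b c d e : ℝ) : sk a b c d e (ev 2) = -b • ev 0 + -c • ev 1 + e • ev 3 := by
  rw [sk_apply]
  ext i
  fin_cases i <;> simp [ev]

theorem sk_3 (a b c d e : ℝ) : sk a b c d e (ev 3) = -d • ev 1 + -e • ev 2 := by
  rw [sk_apply]
  ext i
  fin_cases i <;> simp [ev]

theorem sk_comb (s t a b c d e a' b' c' d' e' : ℝ) : s • sk a b c d e + t • sk a' b' c' d' e' =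
    sk (s * a + t * a') (s * b + t * b') (s * c + t * c') (s * d + t * d') (s * e + t * e') := by
  simp only [sk]
  module

theorem sk_flat (l x y p q xx yy : ℝ) (h : xx + yy = p ^ 2 + q ^ 2 - l ^ 2) (px py : ℝ) :
    sk 0 (l * x) xx (-(-x * q - py)) (-(-x * p + px)) -
      sk (l * y) 0 (-yy) (-y * p + py) (-(-y * q + px)) +
      sk l 0 (-y) p (-q) * sk 0 l x (-q) (-p) - sk 0 l x (-q) (-p) * sk l 0 (-y) p (-q) = 0 := by
  ext v i
  simp only [sub_apply, add_apply, mul_apply_eq_comp, sk_apply]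
  fin_cases i <;> simp
  · ring
  · linear_combination (-v 2) * h
  · linear_combination (v 1) * h
  · ring

theorem fderiv_sk {a b c d e : ℂ → ℝ} {z : ℂ} {a' b' c' d' e' : ℂ →L[ℝ] ℝ}
    (ha : HasFDerivAt a a' z) (hb : HasFDerivAt b b' z) (hc : HasFDerivAt c c' z)
    (hd : HasFDerivAt d d' z) (he : HasFDerivAt e e' z) (w : ℂ) :
    fderiv ℝ (fun z => sk (a z) (b z) (c z) (d z) (e z)) z w =
      sk (a' w) (b' w) (c' w) (d' w) (e' w) := by
  have h : HasFDerivAt (fun z => sk (a z) (b z) (c z) (d z) (e z))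
      (a'.smulRight (el 0 1) + b'.smulRight (el 0 2) + c'.smulRight (el 1 2) +
        d'.smulRight (el 1 3) + e'.smulRight (el 2 3)) z :=
    ((((ha.smul_const (el 0 1)).add (hb.smul_const (el 0 2))).add (hc.smul_const (el 1 2))).add
      (hd.smul_const (el 1 3))).add (he.smul_const (el 2 3))
  rw [h.fderiv]
  rfl

theorem smooth_sk {a b c d e : ℂ → ℝ} {D : Set ℂ} (ha : ContDiffOn ℝ ∞ a D)
    (hb : ContDiffOn ℝ ∞ b D) (hc : ContDiffOn ℝ ∞ c D) (hd : ContDiffOn ℝ ∞ d D)
    (he : ContDiffOn ℝ ∞ e D) : ContDiffOn ℝ ∞ (fun z => sk (a z) (b z) (c z) (d z) (e z)) D := by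
  unfold sk
  exact ((((ha.smul contDiffOn_const).add (hb.smul contDiffOn_const)).add
    (hc.smul contDiffOn_const)).add (hd.smul contDiffOn_const)).add (he.smul contDiffOn_const)

/-- A parallel frame for a skew connection is orthonormal. -/
theorem orth {D : Set ℂ} (hD : IsOpen D) (hc : IsPreconnected D) (h0 : 0 ∈ D)
    {F : ℂ → E4 →L[ℝ] E4} (hF : ContDiffOn ℝ ∞ F D) (F0 : F 0 = 1)
    (hd : ∀ z ∈ D, ∀ v, ∃ a b c d e, fderiv ℝ F z v = F z * sk a b c d e) {z : ℂ} (hz : z ∈ D)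
    (j k : Fin 4) : ⟪F z (ev j), F z (ev k)⟫ = if j = k then 1 else 0 := by
  have dF : ∀ z ∈ D, ∀ j i, HasFDerivAt (fun z => F z (ev j) i)
      ((EuclideanSpace.proj i : E4 →L[ℝ] ℝ).comp ((fderiv ℝ F z).flip (ev j))) z := by
    intro z hz j i
    have h1 := ((hF.contDiffAt (hD.mem_nhds hz)).differentiableAt (by simp)).hasFDerivAt
    have h2 := h1.clm_apply (hasFDerivAt_const (ev j) z)
    rw [ContinuousLinearMap.comp_zero, zero_add] at h2
    exact (EuclideanSpace.proj i : E4 →L[ℝ] ℝ).hasFDerivAt.comp z h2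
  have h1 : ∀ i k, ∑ j, F z (ev j) i * F z (ev j) k = ∑ j, F 0 (ev j) i * F 0 (ev j) k := by
    intro i k
    have hs := fun z (hz : z ∈ D) => HasFDerivAt.fun_sum (u := Finset.univ)
      fun j _ => (dF z hz j i).fun_mul (dF z hz j k)
    refine hD.is_const_of_fderiv_eq_zero (𝕜 := ℝ) (f := fun z => ∑ j, F z (ev j) i * F z (ev j) k)
      hc (fun z hz => (hs z hz).differentiableAt.differentiableWithinAt) (fun z hz => ?_) hz h0
    rw [(hs z hz).fderiv]
    ext1 v
    obtain ⟨a, b, c, d, e, h⟩ := hd z hz v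
    simp [Fin.sum_univ_four, h, sk_0, sk_1, sk_2, sk_3]
    ring
  let M : Matrix (Fin 4) (Fin 4) ℝ := Matrix.of fun i j => F z (ev j) i
  have h2 : M * M.transpose = 1 := by
    ext i k
    rw [Matrix.mul_apply]
    refine (h1 i k).trans ?_
    fin_cases i <;> fin_cases k <;> simp [F0, ev]
  have h4 : M.transpose * M = 1 := mul_eq_one_comm.1 h2
  have h3 : (M.transpose * M) j k = (1 : Matrix (Fin 4) (Fin 4) ℝ) j k := by rw [h4]
  rw [Matrix.mul_apply, Matrix.one_apply] at h3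
  rw [← h3, PiLp.inner_apply]
  refine Finset.sum_congr rfl fun i _ => ?_
  simp [M, mul_comm]

/-- The connection in the first direction. -/
def cA (u : ℂ → ℝ) (H : ℂ → ℂ) (z : ℂ) : E4 →L[ℝ] E4 := sk (Real.exp (u z)) 0 (-d2 u z)
  (Real.exp (-u z) * (H z).re) (-(Real.exp (-u z) * (H z).im))

/-- The connection in the second direction. -/
def cB (u : ℂ → ℝ) (H : ℂ → ℂ) (z : ℂ) : E4 →L[ℝ] E4 := sk 0 (Real.exp (u z)) (d1 u z)
  (-(Real.exp (-u z) * (H z).im)) (-(Real.exp (-u z) * (H z).re))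

/-- The connection form. -/
def conn (u : ℂ → ℝ) (H : ℂ → ℂ) (z : ℂ) : ℂ →L[ℝ] E4 →L[ℝ] E4 :=
  reCLM.smulRight (cA u H z) + imCLM.smulRight (cB u H z)

theorem conn_apply (u : ℂ → ℝ) (H : ℂ → ℂ) (z v : ℂ) :
    conn u H z v = v.re • cA u H z + v.im • cB u H z := rfl

variable {D : Set ℂ} {u : ℂ → ℝ} {H : ℂ → ℂ}

theorem smooth_d (hD : IsOpen D) (hu : ContDiffOn ℝ ∞ u D) (v : ℂ) :
    ContDiffOn ℝ ∞ (fun z => fderiv ℝ u z v) D :=
  (hu.fderiv_of_isOpen (m := ∞) hD (by simp)).clm_apply contDiffOn_const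

theorem conn_smooth (hD : IsOpen D) (hu : ContDiffOn ℝ ∞ u D) (hH : DifferentiableOn ℂ H D) :
    ContDiffOn ℝ ∞ (conn u H) D := by
  have hH' : ContDiffOn ℝ ∞ H D := (hH.contDiffOn hD).restrict_scalars ℝ
  have hp : ContDiffOn ℝ ∞ (fun z => Real.exp (-u z) * (H z).re) D :=
    hu.neg.exp.mul (reCLM.contDiff.comp_contDiffOn hH')
  have hq : ContDiffOn ℝ ∞ (fun z => Real.exp (-u z) * (H z).im) D :=
    hu.neg.exp.mul (imCLM.contDiff.comp_contDiffOn hH')
  have hA : ContDiffOn ℝ ∞ (cA u H) D :=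
    smooth_sk hu.exp contDiffOn_const (smooth_d hD hu I).neg hp hq.neg
  have hB : ContDiffOn ℝ ∞ (cB u H) D :=
    smooth_sk contDiffOn_const hu.exp (smooth_d hD hu 1) hq.neg hp.neg
  rw [contDiffOn_clm_apply]
  intro v
  exact (hA.const_smul v.re).add (hB.const_smul v.im)

theorem conn_flat (hD : IsOpen D) (hu : ContDiffOn ℝ ∞ u D) (hH : DifferentiableOn ℂ H D)
    {z : ℂ} (hz : z ∈ D)
    (hg : lap u z = ‖H z‖ ^ 2 * Real.exp (-2 * u z) - Real.exp (2 * u z)) :
    fderiv ℝ (conn u H) z 1 I - fderiv ℝ (conn u H) z I 1 + conn u H z 1 * conn u H z I -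
      conn u H z I * conn u H z 1 = 0 := by
  have nz := hD.mem_nhds hz
  have dα := ((conn_smooth hD hu hH).contDiffAt nz).differentiableAt (by simp)
  have e : ∀ v w, fderiv ℝ (conn u H) z w v = fderiv ℝ (fun z => conn u H z v) z w := by
    intro v w
    rw [fderiv_clm_apply dα (differentiableAt_const v)]
    simp
  have a1 : ∀ z, conn u H z 1 = cA u H z := fun z => by
    ext x
    simp [conn_apply]
  have a2 : ∀ z, conn u H z I = cB u H z := fun z => by
    ext x
    simp [conn_apply]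
  have du := ((hu.contDiffAt nz).differentiableAt (by simp)).hasFDerivAt
  have dd1 : HasFDerivAt (d1 u) (fderiv ℝ (d1 u) z) z :=
    (((smooth_d hD hu 1).contDiffAt nz).differentiableAt (by simp)).hasFDerivAt
  have dd2 : HasFDerivAt (d2 u) (fderiv ℝ (d2 u) z) z :=
    (((smooth_d hD hu I).contDiffAt nz).differentiableAt (by simp)).hasFDerivAt
  have dH := (hH.differentiableAt nz).hasDerivAt.hasFDerivAt.restrictScalars ℝ
  have dre : HasFDerivAt (fun z => (H z).re) _ z := reCLM.hasFDerivAt.comp z dH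
  have dim : HasFDerivAt (fun z => (H z).im) _ z := imCLM.hasFDerivAt.comp z dH
  have dp := du.fun_neg.exp.fun_mul dre
  have dq := du.fun_neg.exp.fun_mul dim
  have e1 : Real.exp (-2 * u z) = Real.exp (-u z) ^ 2 := by
    rw [← Real.exp_nat_mul]
    simp
  have e2 : Real.exp (2 * u z) = Real.exp (u z) ^ 2 := by
    rw [← Real.exp_nat_mul]
    simp
  rw [e1, e2, Complex.sq_norm, Complex.normSq_apply, lap] at hg
  simp only [e, a1, a2, cA, cB]
  rw [fderiv_sk (hasFDerivAt_const (0 : ℝ) z) du.exp dd1 dq.fun_neg dp.fun_neg 1,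
    fderiv_sk du.exp (hasFDerivAt_const (0 : ℝ) z) dd2.fun_neg dp dq.fun_neg I]
  rw [← sk_flat (Real.exp (u z)) (d1 u z) (d2 u z) (Real.exp (-u z) * (H z).re)
    (Real.exp (-u z) * (H z).im) (d1 (d1 u) z) (d2 (d2 u) z) (by linear_combination hg)
    (Real.exp (-u z) * (deriv H z).re) (-(Real.exp (-u z) * (deriv H z).im))]
  congr 4 <;> simp [d1, d2] <;> ring

theorem bonnet (hflat : FlatStmt) : BonnetStmt := by
  intro D u H hD h0 hs hu hH hG
  obtain ⟨F, hF, F0, hd⟩ := hflat D (conn u H) hD h0 hs (conn_smooth hD hu hH)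
    fun z hz => conn_flat hD hu hH hz (hG z hz)
  have hc : IsPreconnected D := (hs.isPathConnected h0).isConnected.isPreconnected
  have ho : ∀ z ∈ D, ∀ j k, ⟪F z (ev j), F z (ev k)⟫ = if j = k then 1 else 0 :=
    fun z hz => orth hD hc h0 hF F0
      (fun z hz v => ⟨_, _, _, _, _, by rw [hd z hz, conn_apply, cA, cB, sk_comb]⟩) hz
  have dT : ∀ z ∈ D, ∀ j v, fderiv ℝ (fun z => F z (ev j)) z v =
      F z (conn u H z v (ev j)) := by
    intro z hz j v
    rw [fderiv_clm_apply ((hF.contDiffAt (hD.mem_nhds hz)).differentiableAt (by simp))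
      (differentiableAt_const _)]
    simp [hd z hz]
  have df : ∀ z ∈ D, ∀ v, fderiv ℝ (fun z => F z (ev 0)) z v =
      (v.re * Real.exp (u z)) • F z (ev 1) + (v.im * Real.exp (u z)) • F z (ev 2) := by
    intro z hz v
    rw [dT z hz, conn_apply, cA, cB, sk_comb, sk_0]
    simp
  have nrm : ∀ z ∈ D, ∀ j, ‖F z (ev j)‖ = 1 := by
    intro z hz j
    have := ho z hz j j
    rw [if_pos rfl, real_inner_self_eq_norm_sq] at this
    nlinarith [norm_nonneg (F z (ev j))]
  refine ⟨fun z => F z (ev 0), fun z => F z (ev 3), hD, hF.clm_apply contDiffOn_const,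
    hF.clm_apply contDiffOn_const, hu, fun z hz => nrm z hz 0, fun z hz => nrm z hz 3,
    fun z hz => by simpa using ho z hz 3 0, fun z hz v => ?_, fun z hz v w => ?_,
    fun z hz v => ?_⟩
  · rw [df z hz, inner_add_right, real_inner_smul_right, real_inner_smul_right, ho z hz, ho z hz]
    simp
  · rw [df z hz, df z hz, inner_c, show 2 * u z = u z + u z by ring, Real.exp_add]
    simp only [inner_add_left, inner_add_right, real_inner_smul_left, real_inner_smul_right,
      ho z hz]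
    simp
    ring
  · have e1 : Real.exp (-2 * u z) * Real.exp (u z) = Real.exp (-u z) := by
      rw [← Real.exp_add]
      congr 1
      ring
    rw [df z hz, dT z hz, conn_apply, cA, cB, sk_comb, sk_3, ← e1]
    simp only [map_add, map_smul, conj_re, conj_im, mul_re, mul_im]
    module

end Pool.Agent.MP_6b3e96_gt.H69
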