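import Pool.Agent.MP_6b3e96_gt.H77.Spec

/-!
The moving frame of a conformal minimal immersion, and rigidity.
-/

open scoped ContDiff Topology RealInnerProductSpace
open Set Filter Complex

noncomputable section

namespace Pool.Agent.MP_6b3e96_gt.H69

open Pool.Agent.MP_6b3e96_gt.H77

theorem inner_c (v w : ℂ) : ⟪v, w⟫ = v.re * w.re + v.im * w.im := by
  simp [Complex.inner]
  ring

theorem clm_split {E : Type} [NormedAddCommGroup E] [NormedSpace ℝ E] (A : ℂ →L[ℝ] E) (v : ℂ) :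
    A v = v.re • A 1 + v.im • A I := by
  rw [← map_smul, ← map_smul, ← map_add]
  congr 1
  apply Complex.ext <;> simp

theorem diff_constraint {a b : ℂ → E4} {g : ℂ → ℝ} {z : ℂ} (ha : DifferentiableAt ℝ a z)
    (hb : DifferentiableAt ℝ b z) (h : ∀ᶠ y in 𝓝 z, ⟪a y, b y⟫ = g y) (w : ℂ) :
    ⟪a z, fderiv ℝ b z w⟫ + ⟪fderiv ℝ a z w, b z⟫ = fderiv ℝ g z w := by
  rw [← fderiv_inner_apply ℝ ha hb, Filter.EventuallyEq.fderiv_eq h]

theorem ext4 {a b c d X Y : E4} (ha : ⟪a, a⟫ = 1) (hb : ⟪b, b⟫ = 1) (hc : ⟪c, c⟫ = 1)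
    (hd : ⟪d, d⟫ = 1) (hab : ⟪a, b⟫ = 0) (hac : ⟪a, c⟫ = 0) (had : ⟪a, d⟫ = 0) (hbc : ⟪b, c⟫ = 0)
    (hbd : ⟪b, d⟫ = 0) (hcd : ⟪c, d⟫ = 0) (h1 : ⟪a, X⟫ = ⟪a, Y⟫) (h2 : ⟪b, X⟫ = ⟪b, Y⟫)
    (h3 : ⟪c, X⟫ = ⟪c, Y⟫) (h4 : ⟪d, X⟫ = ⟪d, Y⟫) : X = Y := by
  have hba := (real_inner_comm a b).trans hab
  have hca := (real_inner_comm a c).trans hac
  have hda := (real_inner_comm a d).trans had
  have hcb := (real_inner_comm b c).trans hbc
  have hdb := (real_inner_comm b d).trans hbd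
  have hdc := (real_inner_comm c d).trans hcd
  have ho : Orthonormal ℝ ![a, b, c, d] := by
    rw [orthonormal_iff_ite]
    intro i j
    fin_cases i <;> fin_cases j <;> simp [*, -inner_self_eq_norm_sq_to_K]
  refine InnerProductSpace.ext_inner_left_basis (𝕜 := ℝ)
    (basisOfOrthonormalOfCardEqFinrank ho (by simp)) fun i => ?_
  rw [coe_basisOfOrthonormalOfCardEqFinrank]
  fin_cases i <;> simpa

variable {D : Set ℂ} {u : ℂ → ℝ} {H : ℂ → ℂ} {f ν : ℂ → E4}

theorem at_f (S : Surf D u H f ν) {z : ℂ} (hz : z ∈ D) : ContDiffAt ℝ ∞ f z :=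
  S.sf.contDiffAt (S.opn.mem_nhds hz)

theorem d_f (S : Surf D u H f ν) {z : ℂ} (hz : z ∈ D) : DifferentiableAt ℝ f z :=
  (at_f S hz).differentiableAt (by simp)

theorem d_n (S : Surf D u H f ν) {z : ℂ} (hz : z ∈ D) : DifferentiableAt ℝ ν z :=
  (S.sn.contDiffAt (S.opn.mem_nhds hz)).differentiableAt (by simp)

theorem d_u (S : Surf D u H f ν) {z : ℂ} (hz : z ∈ D) : DifferentiableAt ℝ u z :=
  (S.su.contDiffAt (S.opn.mem_nhds hz)).differentiableAt (by simp)

theorem d_df (S : Surf D u H f ν) {z : ℂ} (hz : z ∈ D) : DifferentiableAt ℝ (fderiv ℝ f) z :=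
  ((at_f S hz).fderiv_right (m := 1) (by norm_cast)).differentiableAt (by simp)

theorem d_dfv (S : Surf D u H f ν) {z : ℂ} (hz : z ∈ D) (v : ℂ) :
    DifferentiableAt ℝ (fun z => fderiv ℝ f z v) z :=
  (d_df S hz).clm_apply (differentiableAt_const v)

theorem snd_symm (S : Surf D u H f ν) {z : ℂ} (hz : z ∈ D) (v w : ℂ) :
    fderiv ℝ (fun z => fderiv ℝ f z v) z w = fderiv ℝ (fun z => fderiv ℝ f z w) z v := by
  have h : ∀ v w, fderiv ℝ (fun z => fderiv ℝ f z v) z w = fderiv ℝ (fderiv ℝ f) z w v := by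
    intro v w
    rw [fderiv_clm_apply (d_df S hz) (differentiableAt_const v)]
    simp
  rw [h, h]
  exact ((at_f S hz).isSymmSndFDerivAt (by simp; norm_cast)).eq w v

theorem ff (S : Surf D u H f ν) {z : ℂ} (hz : z ∈ D) : ⟪f z, f z⟫ = 1 := by
  rw [real_inner_self_eq_norm_sq, S.nf z hz, one_pow]

theorem f_df (S : Surf D u H f ν) {z : ℂ} (hz : z ∈ D) (v : ℂ) : ⟪f z, fderiv ℝ f z v⟫ = 0 := by
  have h := diff_constraint (g := fun _ => 1) (d_f S hz) (d_f S hz)
    (by filter_upwards [S.opn.mem_nhds hz] with y hy using ff S hy) v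
  rw [real_inner_comm (f z) (fderiv ℝ f z v)] at h
  simp only [fderiv_fun_const, Pi.zero_apply, zero_apply] at h
  linarith

theorem f_snd (S : Surf D u H f ν) {z : ℂ} (hz : z ∈ D) (v w : ℂ) :
    ⟪f z, fderiv ℝ (fun z => fderiv ℝ f z v) z w⟫ = -(Real.exp (2 * u z) * ⟪v, w⟫) := by
  have h := diff_constraint (g := fun _ => 0) (d_f S hz) (d_dfv S hz v)
    (by filter_upwards [S.opn.mem_nhds hz] with y hy using f_df S hy v) w
  rw [S.conf z hz, real_inner_comm v w] at h
  simp only [fderiv_fun_const, Pi.zero_apply, zero_apply] at h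
  linarith

theorem n_snd (S : Surf D u H f ν) {z : ℂ} (hz : z ∈ D) (v w : ℂ) :
    ⟪ν z, fderiv ℝ (fun z => fderiv ℝ f z v) z w⟫ = (H z * v * w).re := by
  have h := diff_constraint (g := fun _ => 0) (d_n S hz) (d_dfv S hz v)
    (by filter_upwards [S.opn.mem_nhds hz] with y hy using S.nor y hy v) w
  rw [S.wei z hz, real_inner_smul_left, S.conf z hz, inner_c] at h
  have e : Real.exp (-2 * u z) * Real.exp (2 * u z) = 1 := by
    rw [← Real.exp_add]
    simp
  simp only [fderiv_fun_const, Pi.zero_apply, zero_apply, conj_re, conj_im,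
    mul_re, mul_im] at h ⊢
  linear_combination h + (((H z).re * w.re - (H z).im * w.im) * v.re +
    -((H z).re * w.im + (H z).im * w.re) * v.im) * e

theorem t_snd (S : Surf D u H f ν) {z : ℂ} (hz : z ∈ D) (v w x : ℂ) :
    ⟪fderiv ℝ f z x, fderiv ℝ (fun z => fderiv ℝ f z v) z w⟫ = Real.exp (2 * u z) *
      (fderiv ℝ u z w * ⟪v, x⟫ + fderiv ℝ u z v * ⟪w, x⟫ - fderiv ℝ u z x * ⟪v, w⟫) := by
  have h : ∀ a b c : ℂ, ⟪fderiv ℝ f z a, fderiv ℝ (fun z => fderiv ℝ f z b) z c⟫ +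
      ⟪fderiv ℝ f z b, fderiv ℝ (fun z => fderiv ℝ f z a) z c⟫ =
      Real.exp (2 * u z) * (2 * fderiv ℝ u z c) * ⟪a, b⟫ := by
    intro a b c
    have h := diff_constraint (g := fun y => Real.exp (2 * u y) * ⟪a, b⟫) (d_dfv S hz a)
      (d_dfv S hz b) (by filter_upwards [S.opn.mem_nhds hz] with y hy using S.conf y hy a b) c
    rw [real_inner_comm (fderiv ℝ f z b)] at h
    rw [h, ((((d_u S hz).hasFDerivAt.const_mul 2).exp).mul_const ⟪a, b⟫).fderiv]
    simp
    ring
  have h1 := h x v w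
  have h2 := h x w v
  have h3 := h v w x
  rw [snd_symm S hz w v] at h2
  rw [snd_symm S hz w x, snd_symm S hz v x] at h3
  rw [real_inner_comm v x] at h1
  rw [real_inner_comm w x] at h2
  linear_combination (h1 + h2 - h3) / 2

theorem frame : FrameStmt := by
  intro D u H f ν S z hz v w
  refine ⟨?_, n_snd S hz v w⟩
  have e1 : Real.exp (-u z) * Real.exp (u z) = 1 := by
    rw [← Real.exp_add]
    simp
  have e2 : Real.exp (2 * u z) = Real.exp (u z) ^ 2 := by
    rw [← Real.exp_nat_mul]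
    simp
  have hd : fderiv ℝ (fun z => Real.exp (-u z) • fderiv ℝ f z v) z w =
      Real.exp (-u z) • fderiv ℝ (fun z => fderiv ℝ f z v) z w -
        (Real.exp (-u z) * fderiv ℝ u z w) • fderiv ℝ f z v := by
    rw [(((d_u S hz).hasFDerivAt.fun_neg.exp).fun_smul (d_dfv S hz v).hasFDerivAt).fderiv]
    simp [sub_eq_add_neg]
  have nn : ⟪ν z, ν z⟫ = 1 := by rw [real_inner_self_eq_norm_sq, S.nn z hz, one_pow]
  have fn : ⟪f z, ν z⟫ = 0 := (real_inner_comm _ _).trans (S.fn z hz)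
  have tn : ∀ x, ⟪fderiv ℝ f z x, ν z⟫ = 0 := fun x => (real_inner_comm _ _).trans (S.nor z hz x)
  have tf : ∀ x, ⟪fderiv ℝ f z x, f z⟫ = 0 := fun x => (real_inner_comm _ _).trans (f_df S hz x)
  rw [hd]
  refine ext4 (a := f z) (b := Real.exp (-u z) • fderiv ℝ f z 1)
    (c := Real.exp (-u z) • fderiv ℝ f z I) (d := ν z) (ff S hz) ?_ ?_ nn ?_ ?_ fn ?_ ?_ ?_
    ?_ ?_ ?_ ?_
  all_goals
    simp only [inner_sub_right, inner_add_right, real_inner_smul_left, real_inner_smul_right,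
      S.conf z hz, f_df S hz, tn, tf, fn, nn, S.fn z hz, S.nor z hz, ff S hz, f_snd S hz,
      n_snd S hz, t_snd S hz, inner_c, e2, mul_zero]
  · simp only [one_re, one_im]
    linear_combination (Real.exp (-u z) * Real.exp (u z) + 1) * e1
  · simp only [I_re, I_im]
    linear_combination (Real.exp (-u z) * Real.exp (u z) + 1) * e1
  · simp
  · linear_combination (-Real.exp (u z) * (v.re * w.re + v.im * w.im)) * e1
  · rw [clm_split _ v, clm_split _ (-I * w), clm_split _ w]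
    simp
    ring
  · rw [clm_split _ v, clm_split _ (-I * w), clm_split _ w]
    simp
    ring
  · ring

/-- The unit tangent vector in the direction `v`. -/
def tv (u : ℂ → ℝ) (f : ℂ → E4) (v z : ℂ) : E4 := Real.exp (-u z) • fderiv ℝ f z v

theorem df_tv (u : ℂ → ℝ) (f : ℂ → E4) (z x : ℂ) : Real.exp (-u z) • fderiv ℝ f z x =
    x.re • tv u f 1 z + x.im • tv u f I z := by
  rw [clm_split _ x, smul_add, tv, tv, smul_comm, smul_comm (Real.exp (-u z))]

theorem d_tv (S : Surf D u H f ν) {z : ℂ} (hz : z ∈ D) (v : ℂ) :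
    DifferentiableAt ℝ (tv u f v) z :=
  (d_u S hz).fun_neg.exp.fun_smul (d_dfv S hz v)

theorem eq_f (u : ℂ → ℝ) (f : ℂ → E4) (z w : ℂ) : fderiv ℝ f z w =
    (Real.exp (u z) * w.re) • tv u f 1 z + (Real.exp (u z) * w.im) • tv u f I z := by
  rw [mul_smul, mul_smul, ← smul_add, ← df_tv, smul_smul, ← Real.exp_add]
  simp

theorem eq_n (S : Surf D u H f ν) {z : ℂ} (hz : z ∈ D) (w : ℂ) : fderiv ℝ ν z w =
    -(Real.exp (-u z) * (H z * 1 * w).re) • tv u f 1 z -
      (Real.exp (-u z) * (H z * I * w).re) • tv u f I z := by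
  rw [S.wei z hz, show -2 * u z = -u z + -u z by ring, Real.exp_add, neg_smul, mul_smul, df_tv]
  simp only [conj_re, conj_im, mul_re, mul_im, one_re, one_im, I_re, I_im]
  module

theorem eq_1 (S : Surf D u H f ν) {z : ℂ} (hz : z ∈ D) (w : ℂ) : fderiv ℝ (tv u f 1) z w =
    fderiv ℝ u z (-I * w) • tv u f I z + (Real.exp (-u z) * (H z * 1 * w).re) • ν z -
      (Real.exp (u z) * w.re) • f z := by
  have := (frame D u H f ν S z hz 1 w).1
  rw [mul_one I, inner_c] at this
  unfold tv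
  simpa using this

theorem eq_2 (S : Surf D u H f ν) {z : ℂ} (hz : z ∈ D) (w : ℂ) : fderiv ℝ (tv u f I) z w =
    -fderiv ℝ u z (-I * w) • tv u f 1 z + (Real.exp (-u z) * (H z * I * w).re) • ν z -
      (Real.exp (u z) * w.im) • f z := by
  have := (frame D u H f ν S z hz I w).1
  rw [I_mul_I, map_neg, inner_c] at this
  unfold tv
  simpa using this

theorem rigid : RigidStmt := by
  intro D u H f ν f' ν' S S' hD p hp h1 h2 h3
  let a : ℂ → E4 := fun z => f z - f' z
  let b : ℂ → E4 := fun z => tv u f 1 z - tv u f' 1 z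
  let c : ℂ → E4 := fun z => tv u f I z - tv u f' I z
  let d : ℂ → E4 := fun z => ν z - ν' z
  have ha : ∀ z ∈ D, DifferentiableAt ℝ a z := fun z hz => (d_f S hz).fun_sub (d_f S' hz)
  have hb : ∀ z ∈ D, DifferentiableAt ℝ b z := fun z hz => (d_tv S hz 1).fun_sub (d_tv S' hz 1)
  have hc : ∀ z ∈ D, DifferentiableAt ℝ c z := fun z hz => (d_tv S hz I).fun_sub (d_tv S' hz I)
  have hd : ∀ z ∈ D, DifferentiableAt ℝ d z := fun z hz => (d_n S hz).fun_sub (d_n S' hz)
  have key : ∀ z ∈ D, ⟪a z, a z⟫ + ⟪b z, b z⟫ + ⟪c z, c z⟫ + ⟪d z, d z⟫ =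
      ⟪a p, a p⟫ + ⟪b p, b p⟫ + ⟪c p, c p⟫ + ⟪d p, d p⟫ := by
    intro z hz
    refine S.opn.is_const_of_fderiv_eq_zero (𝕜 := ℝ)
      (f := fun z => ⟪a z, a z⟫ + ⟪b z, b z⟫ + ⟪c z, c z⟫ + ⟪d z, d z⟫) hD (fun z hz => ?_)
      (fun z hz => ?_) hz hp
    · exact (((((ha z hz).inner ℝ (ha z hz)).fun_add ((hb z hz).inner ℝ (hb z hz))).fun_add
        ((hc z hz).inner ℝ (hc z hz))).fun_add ((hd z hz).inner ℝ (hd z hz))).differentiableWithinAt
    · ext1 w
      have da : fderiv ℝ a z w =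
          (Real.exp (u z) * w.re) • b z + (Real.exp (u z) * w.im) • c z := by
        rw [fderiv_fun_sub (d_f S hz) (d_f S' hz), sub_apply, eq_f u f,
          eq_f u f']
        simp only [b, c]
        module
      have db : fderiv ℝ b z w = fderiv ℝ u z (-I * w) • c z +
          (Real.exp (-u z) * (H z * 1 * w).re) • d z - (Real.exp (u z) * w.re) • a z := by
        rw [fderiv_fun_sub (d_tv S hz 1) (d_tv S' hz 1), sub_apply,
          eq_1 S hz, eq_1 S' hz]
        simp only [a, c, d]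
        module
      have dc : fderiv ℝ c z w = -fderiv ℝ u z (-I * w) • b z +
          (Real.exp (-u z) * (H z * I * w).re) • d z - (Real.exp (u z) * w.im) • a z := by
        rw [fderiv_fun_sub (d_tv S hz I) (d_tv S' hz I), sub_apply,
          eq_2 S hz, eq_2 S' hz]
        simp only [a, b, d]
        module
      have dd : fderiv ℝ d z w = -(Real.exp (-u z) * (H z * 1 * w).re) • b z -
          (Real.exp (-u z) * (H z * I * w).re) • c z := by
        rw [fderiv_fun_sub (d_n S hz) (d_n S' hz), sub_apply,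
          eq_n S hz, eq_n S' hz]
        simp only [b, c]
        module
      have ia := (ha z hz).inner ℝ (ha z hz)
      have ib := (hb z hz).inner ℝ (hb z hz)
      have ic := (hc z hz).inner ℝ (hc z hz)
      have id := (hd z hz).inner ℝ (hd z hz)
      rw [fderiv_fun_add ((ia.fun_add ib).fun_add ic) id, fderiv_fun_add (ia.fun_add ib) ic,
        fderiv_fun_add ia ib]
      simp only [add_apply, fderiv_inner_apply ℝ (ha z hz) (ha z hz),
        fderiv_inner_apply ℝ (hb z hz) (hb z hz), fderiv_inner_apply ℝ (hc z hz) (hc z hz),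
        fderiv_inner_apply ℝ (hd z hz) (hd z hz), da, db, dc, dd, inner_add_left, inner_add_right,
        inner_sub_left, inner_sub_right, real_inner_smul_left, real_inner_smul_right,
        real_inner_comm (a z) (b z), real_inner_comm (a z) (c z), real_inner_comm (b z) (c z),
        real_inner_comm (b z) (d z), real_inner_comm (c z) (d z), Pi.zero_apply, zero_apply]
      ring
  have h0 : ⟪a p, a p⟫ + ⟪b p, b p⟫ + ⟪c p, c p⟫ + ⟪d p, d p⟫ = 0 := by
    simp [a, b, c, d, tv, h1, h2, h3]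
  have fin : ∀ z ∈ D, a z = 0 ∧ d z = 0 := by
    intro z hz
    have := key z hz
    have n1 := real_inner_self_nonneg (x := a z)
    have n2 := real_inner_self_nonneg (x := b z)
    have n3 := real_inner_self_nonneg (x := c z)
    have n4 := real_inner_self_nonneg (x := d z)
    exact ⟨inner_self_eq_zero (𝕜 := ℝ).1 (by linarith), inner_self_eq_zero (𝕜 := ℝ).1 (by linarith)⟩
  exact ⟨fun z hz => sub_eq_zero.1 (fin z hz).1, fun z hz => sub_eq_zero.1 (fin z hz).2⟩

end Pool.Agent.MP_6b3e96_gt.H69
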